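import Pool.Agent.R579.Rugby.Win

/-!
# MP_ab73e1_co: the answer to Q1 is negative

For every dimension `d`, every speed `s` and every `δ > 0`, if `n` is sufficiently large then
`n ^ (1 + δ)` cops win `d`-dimensional Rugby on `ℤ × [n]^d` against a robber of speed `s`. In
particular Q1 fails for every `d ≥ 2` (and every `ε < d - 1`).

The games are defined in `Pool.Agent.R579.Rugby.Game` (`OnBoard`, `Near`, `IsCopPlay`,
`RobberWins`, `Causal`, `RobberBeats`, `Question`).

Idea: time is divided into periods. By an energy increment argument, for most target times in a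
period the path of the robber is almost linear at all but a bounded number of scales
`b, b ^ 2, …, b ^ J`. So a cop which knows the target time and, at each scale, a piece of advice
from a set of bounded size (much smaller than `b`) can be at the position of the robber at the
target time. There is one cop for each possible target time and each possible sequence of advices.
-/

namespace Pool.Agent.Results.MP_ab73e1_co.FewCopsWin

open Filter Pool.Agent.R579.Rugby

theorem card_seed (b J s D F : ℕ) : Fintype.card (Seed b J s D F)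
    = b ^ J * ((b + 10 * s + 1) ^ D * (((D * J) * (4 * b * s + 1)) ^ F * ((2 * s + 3) ^ D) ^ J)) := by
  simp only [Seed, Fintype.card_prod, Fintype.card_fun, Fintype.card_fin]
  rw [← pow_mul (2 * s + 3) J D, ← pow_mul (2 * s + 3) D J, mul_comm J D]

theorem exists_base (A : ℕ) {η : ℝ} (hη : 0 < η) : ∃ b : ℕ, 5 ≤ b ∧ (A : ℝ) ≤ (b : ℝ) ^ η := by
  have h1 : Tendsto (fun b : ℕ => (b : ℝ) ^ η) atTop atTop :=
    (tendsto_rpow_atTop hη).comp tendsto_natCast_atTop_atTop
  obtain ⟨b, hb1, hb2⟩ := ((h1.eventually_ge_atTop (A : ℝ)).and (eventually_ge_atTop 5)).exists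
  exact ⟨b, hb2, hb1⟩

/-- For all large `n`, `n ^ (1 + δ)` cops win. -/
theorem main (d s : ℕ) (δ : ℝ) (hδ : 0 < δ) : ∃ N : ℕ, ∀ n ≥ N, ∀ m : ℕ,
    (n : ℝ) ^ (1 + δ) ≤ m → ¬ RobberBeats d n s m := by
  obtain ⟨b, hb5, hbA⟩ := exists_base ((2 * s + 3) ^ (d + 1)) (half_pos hδ)
  set F := (d + 1) * (8 * b ^ 3 * s ^ 2) + 1 with hF
  set C : ℝ := ((b : ℝ) + 10 * s + 1) ^ (d + 1) * (((d : ℝ) + 1) * (4 * b * s + 1)) ^ F with hC
  have hC0 : 0 < C := by positivity
  have hlo := (isLittleO_log_rpow_rpow_atTop (F : ℝ) (half_pos hδ)).def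
    (show 0 < 1 / C by positivity)
  obtain ⟨N, hN⟩ := eventually_atTop.1
    ((tendsto_natCast_atTop_atTop (R := ℝ)).eventually hlo)
  refine ⟨max N b, fun n hn m hm => ?_⟩
  have hnb : b ≤ n := (le_max_right _ _).trans hn
  have hn1 : 1 ≤ n := by omega
  have hn0 : (0 : ℝ) < n := by exact_mod_cast hn1
  set J := Nat.log b n with hJ
  have hJ1 : 1 ≤ J := Nat.log_pos (by omega) hnb
  have hJn : b ^ J ≤ n := Nat.pow_log_le_self b (by omega)
  have hJn' : n ≤ b ^ (J + 1) := (Nat.lt_pow_succ_log_self (by omega) n).le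
  refine not_robberBeats hb5 hJ1 hn1 hJn' ?_
  rw [card_seed]
  have hJnR : (b : ℝ) ^ J ≤ n := by exact_mod_cast hJn
  have hlogb : 1 ≤ Real.log b := by
    rw [Real.le_log_iff_exp_le (by positivity)]
    have h1 := Real.exp_one_lt_d9
    have h2 : (5 : ℝ) ≤ b := by exact_mod_cast hb5
    linarith
  have hJlog : (J : ℝ) ≤ Real.log n := by
    have h1 := Real.log_le_log (by positivity) hJnR
    rw [Real.log_pow] at h1
    have h2 : (0 : ℝ) ≤ J := by positivity
    nlinarith
  have h1 : C * (J : ℝ) ^ F ≤ (n : ℝ) ^ (δ / 2) := by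
    have h2 := hN n ((le_max_left _ _).trans hn)
    rw [Real.rpow_natCast, Real.norm_of_nonneg (by positivity),
      Real.norm_of_nonneg (by positivity)] at h2
    have h3 : (J : ℝ) ^ F ≤ Real.log n ^ F := pow_le_pow_left₀ (by positivity) hJlog F
    calc C * (J : ℝ) ^ F ≤ C * (1 / C * (n : ℝ) ^ (δ / 2)) :=
          mul_le_mul_of_nonneg_left (h3.trans h2) hC0.le
      _ = (n : ℝ) ^ (δ / 2) := by field_simp
  have h2 : ((((2 * s + 3) ^ (d + 1)) ^ J : ℕ) : ℝ) ≤ (n : ℝ) ^ (δ / 2) := by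
    calc ((((2 * s + 3) ^ (d + 1)) ^ J : ℕ) : ℝ) = (((2 * s + 3) ^ (d + 1) : ℕ) : ℝ) ^ J := by
          push_cast
          ring
      _ ≤ ((b : ℝ) ^ (δ / 2)) ^ J := pow_le_pow_left₀ (by positivity) hbA J
      _ = ((b : ℝ) ^ J) ^ (δ / 2) := by
          rw [← Real.rpow_natCast, ← Real.rpow_natCast, ← Real.rpow_mul (by positivity),
            ← Real.rpow_mul (by positivity), mul_comm]
      _ ≤ (n : ℝ) ^ (δ / 2) := Real.rpow_le_rpow (by positivity) hJnR (half_pos hδ).le
  have h3 : ((b ^ J * ((b + 10 * s + 1) ^ (d + 1) * ((((d + 1) * J) * (4 * b * s + 1)) ^ F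
      * ((2 * s + 3) ^ (d + 1)) ^ J)) : ℕ) : ℝ) ≤ m := by
    refine le_trans ?_ hm
    calc ((b ^ J * ((b + 10 * s + 1) ^ (d + 1) * ((((d + 1) * J) * (4 * b * s + 1)) ^ F
          * ((2 * s + 3) ^ (d + 1)) ^ J)) : ℕ) : ℝ)
        = (b : ℝ) ^ J * ((C * (J : ℝ) ^ F) * ((((2 * s + 3) ^ (d + 1)) ^ J : ℕ) : ℝ)) := by
          rw [hC]
          push_cast
          rw [mul_pow, mul_pow, mul_pow]
          ring
      _ ≤ (n : ℝ) * ((n : ℝ) ^ (δ / 2) * (n : ℝ) ^ (δ / 2)) := by
          refine mul_le_mul hJnR (mul_le_mul h1 h2 (by positivity) (by positivity))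
            (by positivity) (by positivity)
      _ = (n : ℝ) ^ (1 + δ) := by
          rw [← Real.rpow_add hn0, add_halves, Real.rpow_add hn0 1 δ, Real.rpow_one]
  exact_mod_cast h3

/-- For every dimension `d`, every speed `s` and every `δ > 0`, a robber of speed `s` does not
beat `n ^ (1 + δ)` cops in `d`-dimensional Rugby if `n` is sufficiently large. Hence the answer
to Q1 is negative. -/
theorem result :
    (∀ d s : ℕ, ∀ δ : ℝ, 0 < δ → ∃ N : ℕ, ∀ n ≥ N, ∀ m : ℕ,
      (n : ℝ) ^ (1 + δ) ≤ m → ¬ RobberBeats d n s m) ∧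
    ¬ Question := by
  refine ⟨main, fun hQ => ?_⟩
  obtain ⟨s, _, N, hN⟩ := hQ 3 (by norm_num) 1 one_pos
  obtain ⟨N', hN'⟩ := main 3 s 1 one_pos
  refine hN' (max N N') (le_max_right _ _) _ ?_ (hN (max N N') (le_max_left _ _))
  have h1 : (((max N N' : ℕ) : ℝ)) ^ (((3 : ℕ) : ℝ) - 1) = (((max N N') ^ 2 : ℕ) : ℝ) := by
    rw [show (((3 : ℕ) : ℝ) - 1) = ((2 : ℕ) : ℝ) by norm_num, Real.rpow_natCast]
    push_cast
    ring
  rw [h1, Nat.floor_natCast, show (1 : ℝ) + 1 = ((2 : ℕ) : ℝ) by norm_num, Real.rpow_natCast]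
  push_cast
  exact le_rfl

end Pool.Agent.Results.MP_ab73e1_co.FewCopsWin
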